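import Pool.Agent.Lib.MP_c7af3c_ag.T2C.H12.Clos
import Pool.Agent.Lib.MP_c7af3c_ag.T2C.H2.Curve

/-!
# MP_c7af3c_ag, project T2C: the point lies on no plane over `k` (row NOPL)
All types with `d m ≤ 3`, and those with `d m ≤ 4` and at most two equations.
-/

set_option autoImplicit false

namespace Pool.Agent.T2C.H49

open MvPolynomial Pool.Agent.Gen Pool.Agent.Sharp Pool.Agent.Edge
open Pool.Agent.Edge.H65 (ssub ssub_hom ssub_C ssub_X)

/-- the count of NOCURVE -/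
def Num (n c : ℕ) (d : Fin c → ℕ) (e : ℕ) : Prop :=
  3 * (n + 1) + (e + 2).choose 2 < ∑ m, ((d m + 2).choose 2 - (d m + 2 - e).choose 2) + 10

section

variable {Ω : Type} [Field Ω] {k : Subfield Ω}

theorem mem_kk {σ : Type} {G : MvPolynomial σ Ω} :
    G ∈ (MvPolynomial.map (σ := σ) k.subtype).range ↔ ∀ I, coeff I G ∈ k := by
  constructor
  · rintro ⟨g, rfl⟩ I
    rw [coeff_map]
    exact (coeff I g).2
  · intro h
    refine (mem_range_map_iff_coeffs_subset (f := k.subtype)).2 ?_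
    intro a ha
    obtain ⟨I, -, rfl⟩ := (mem_coeffs_iff).1 ha
    exact ⟨⟨_, h I⟩, rfl⟩

theorem ssub_mem {n : ℕ} {P : Fin 3 → Fin (n + 1) → Ω} (hP : ∀ i f, P i f ∈ k)
    {G : MvPolynomial (Fin (n + 1)) Ω} (hG : ∀ I, coeff I G ∈ k) :
    ∀ I, coeff I (ssub P G) ∈ k := by
  rw [← mem_kk]
  have hC : ∀ a ∈ k, (C a : MvPolynomial (Fin 3) Ω) ∈
      (MvPolynomial.map (σ := Fin 3) k.subtype).range := fun a ha => by
    exact ⟨C ⟨a, ha⟩, by rw [map_C]; rfl⟩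
  have hX : ∀ i, (X i : MvPolynomial (Fin 3) Ω) ∈
      (MvPolynomial.map (σ := Fin 3) k.subtype).range := fun i => ⟨X i, by rw [map_X]⟩
  rw [G.as_sum, map_sum]
  refine Subring.sum_mem _ fun I _ => ?_
  have h1 : (monomial I (coeff I G) : MvPolynomial (Fin (n + 1)) Ω) =
      C (coeff I G) * ∏ f, X f ^ I f := by
    rw [monomial_eq, Finsupp.prod_fintype _ _ fun _ => pow_zero _]
  rw [h1, map_mul, map_prod, ssub_C]
  refine Subring.mul_mem _ (hC _ (hG I)) (Subring.prod_mem _ fun f _ => ?_)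
  rw [map_pow, ssub_X]
  exact Subring.pow_mem _ (Subring.sum_mem _ fun i _ =>
    Subring.mul_mem _ (hC _ (hP i f)) (hX i)) _

theorem eval_ssub {n : ℕ} (P : Fin 3 → Fin (n + 1) → Ω) (y : Fin 3 → Ω)
    (G : MvPolynomial (Fin (n + 1)) Ω) :
    eval y (ssub P G) = eval (fun f => ∑ i, P i f * y i) G := by
  have h : ((aeval y : MvPolynomial (Fin 3) Ω →ₐ[Ω] Ω)).comp (ssub P) =
      (aeval fun f => ∑ i, P i f * y i : MvPolynomial (Fin (n + 1)) Ω →ₐ[Ω] Ω) := by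
    refine MvPolynomial.algHom_ext fun f => ?_
    rw [AlgHom.comp_apply, ssub_X, map_sum, aeval_X]
    refine Finset.sum_congr rfl fun i _ => ?_
    rw [map_mul, aeval_X, aeval_C]
    rfl
  exact DFunLike.congr_fun h G

variable {n c : ℕ} {d : Fin c → ℕ}

/-- NOPL: a zero of the system lies on no plane over `k` if it is on no line over `k` and the
counts are right. -/
theorem nopl (D : DSys Ω n c d)
    (hk : ∀ (z : Ω) (p : Polynomial Ω), p ≠ 0 → (∀ i, p.coeff i ∈ k) → p.eval z = 0 → z ∈ k)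
    (kF : ∀ m I, coeff I (D.F m) ∈ k) {P : Fin 3 → Fin (n + 1) → Ω}
    (hP : LinearIndependent Ω P) (Pk : ∀ i f, P i f ∈ k) {x : Fin (n + 1) → Ω}
    (h0 : ∀ m, eval x (D.F m) = 0) (y : Fin 3 → Ω) (xP : ∀ f, x f = ∑ i, P i f * y i)
    (yk : ∀ b : Fin 3 → Ω, (∀ i, b i ∈ k) → ∑ i, b i * y i = 0 → b = 0)
    (h2 : Num n c d 2) (hnum : ∀ e, 2 ≤ e → (∃ m, e ≤ d m) → Num n c d e) : False := by
  have hx : x = fun f => ∑ i, P i f * y i := funext xP
  by_cases hall : ∀ m, ssub P (D.F m) = 0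
  · refine H2.nocurve D hP (e := 2) (by norm_num) (g := X 0 ^ 2) (isHomogeneous_X_pow _ _)
      (pow_ne_zero _ (X_ne_zero _)) h2 fun m => ?_
    rw [hall m]
    exact dvd_zero _
  · push Not at hall
    obtain ⟨m₀, hm₀⟩ := hall
    have hev : ∀ m, eval y (ssub P (D.F m)) = 0 := fun m => by
      rw [eval_ssub, ← hx]
      exact h0 m
    obtain ⟨e, g, g1, g2, g3, g4, g5, g6⟩ := H12.clos hk y yk (ssub_hom P (D.hom m₀))
      (ssub_mem Pk (kF m₀)) hm₀ (hev m₀)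
    have he : e ≤ d m₀ := by
      obtain ⟨q, -, -, -, h⟩ := g6 (d m₀) _ (ssub_hom P (D.hom m₀)) (ssub_mem Pk (kF m₀)) (hev m₀)
      exact h hm₀
    refine H2.nocurve D hP (e := e) (by omega) g1 g4 (hnum e g3 ⟨m₀, he⟩) fun m => ?_
    obtain ⟨q, -, -, h, -⟩ := g6 (d m) _ (ssub_hom P (D.hom m)) (ssub_mem Pk (kF m)) (hev m)
    exact ⟨q, h⟩

end

/-! ### The counts -/

theorem cnt2 (a : ℕ) (ha : 2 ≤ a) : (a + 2).choose 2 - (a + 2 - 2).choose 2 = 2 * a + 1 := by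
  obtain ⟨b, rfl⟩ := Nat.exists_eq_add_of_le ha
  rw [show 2 + b + 2 - 2 = b + 2 by omega, show 2 + b + 2 = b + 2 + 2 by omega,
    Nat.choose_succ_succ' (b + 2 + 1) 1, Nat.choose_succ_succ' (b + 2) 1, Nat.choose_one_right, Nat.choose_one_right]
  simp only [Nat.reduceAdd]
  omega

theorem cnt3 (a : ℕ) (ha : 2 ≤ a) : (a + 2).choose 2 - (a + 2 - 3).choose 2 = 3 * a := by
  obtain ⟨b, rfl⟩ := Nat.exists_eq_add_of_le ha
  rw [show 2 + b + 2 - 3 = b + 1 by omega, show 2 + b + 2 = b + 1 + 1 + 1 + 1 by omega,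
    Nat.choose_succ_succ' (b + 1 + 1 + 1) 1, Nat.choose_succ_succ' (b + 1 + 1) 1,
    Nat.choose_succ_succ' (b + 1) 1, Nat.choose_one_right, Nat.choose_one_right, Nat.choose_one_right]
  simp only [Nat.reduceAdd]
  omega

theorem cnt4 (a : ℕ) (ha : 2 ≤ a) : (a + 2).choose 2 - (a + 2 - 4).choose 2 = 4 * a - 2 := by
  obtain ⟨b, rfl⟩ := Nat.exists_eq_add_of_le ha
  rw [show 2 + b + 2 - 4 = b by omega, show 2 + b + 2 = b + 1 + 1 + 1 + 1 by omega,
    Nat.choose_succ_succ' (b + 1 + 1 + 1) 1, Nat.choose_succ_succ' (b + 1 + 1) 1,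
    Nat.choose_succ_succ' (b + 1) 1, Nat.choose_succ_succ' b 1, Nat.choose_one_right, Nat.choose_one_right, Nat.choose_one_right,
    Nat.choose_one_right]
  simp only [Nat.reduceAdd]
  omega

section

variable {c : ℕ} {d : Fin c → ℕ}

theorem num2 (h2 : ∀ m, 2 ≤ d m) (hd : ∑ m, d m = c + 5) : Num (c + 3) c d 2 := by
  unfold Num
  rw [Finset.sum_congr rfl fun m _ => cnt2 (d m) (h2 m), Finset.sum_add_distrib, ← Finset.mul_sum, hd]
  have h3 : (2 + 2).choose 2 = 6 := rfl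
  rw [h3, Finset.sum_const, Finset.card_univ, Fintype.card_fin, smul_eq_mul]
  omega

theorem num3 (h2 : ∀ m, 2 ≤ d m) (hd : ∑ m, d m = c + 5) : Num (c + 3) c d 3 := by
  unfold Num
  rw [Finset.sum_congr rfl fun m _ => cnt3 (d m) (h2 m), ← Finset.mul_sum, hd]
  have h3 : (3 + 2).choose 2 = 10 := rfl
  rw [h3]
  omega

theorem num4 (h2 : ∀ m, 2 ≤ d m) (hd : ∑ m, d m = c + 5) (hc : c ≤ 2) : Num (c + 3) c d 4 := by
  unfold Num
  have h1 : ∑ m, ((d m + 2).choose 2 - (d m + 2 - 4).choose 2) + ∑ _m : Fin c, 2 = ∑ m, 4 * d m := by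
    rw [← Finset.sum_add_distrib]
    refine Finset.sum_congr rfl fun m _ => ?_
    rw [cnt4 (d m) (h2 m)]
    have := h2 m
    omega
  rw [← Finset.mul_sum, hd, Finset.sum_const, Finset.card_univ, Fintype.card_fin, smul_eq_mul] at h1
  have h3 : (4 + 2).choose 2 = 15 := rfl
  rw [h3]
  omega

end

section

variable {Ω : Type} [Field Ω] {k : Subfield Ω} {c : ℕ} {d : Fin c → ℕ}

/-- NOPL for all types with `K = O(1)` in dimension three and small degrees: (3,4), (2,3,3),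
(2,2,2,3), (2,2,2,2,2). -/
theorem nopl_small (D : DSys Ω (c + 3) c d) (h2 : ∀ m, 2 ≤ d m) (hd : ∑ m, d m = c + 5)
    (hs : (∀ m, d m ≤ 3) ∨ (c ≤ 2 ∧ ∀ m, d m ≤ 4))
    (hk : ∀ (z : Ω) (p : Polynomial Ω), p ≠ 0 → (∀ i, p.coeff i ∈ k) → p.eval z = 0 → z ∈ k)
    (kF : ∀ m I, coeff I (D.F m) ∈ k) {P : Fin 3 → Fin (c + 3 + 1) → Ω}
    (hP : LinearIndependent Ω P) (Pk : ∀ i f, P i f ∈ k) {x : Fin (c + 3 + 1) → Ω}
    (h0 : ∀ m, eval x (D.F m) = 0) (y : Fin 3 → Ω) (xP : ∀ f, x f = ∑ i, P i f * y i)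
    (yk : ∀ b : Fin 3 → Ω, (∀ i, b i ∈ k) → ∑ i, b i * y i = 0 → b = 0) : False := by
  refine nopl D hk kF hP Pk h0 y xP yk (num2 h2 hd) fun e he ⟨m, hm⟩ => ?_
  rcases hs with hs | ⟨hc, hs⟩
  · have h3 := hs m
    have : e = 2 ∨ e = 3 := by omega
    rcases this with rfl | rfl
    · exact num2 h2 hd
    · exact num3 h2 hd
  · have h3 := hs m
    have : e = 2 ∨ e = 3 ∨ e = 4 := by omega
    rcases this with rfl | rfl | rfl
    · exact num2 h2 hd
    · exact num3 h2 hd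
    · exact num4 h2 hd hc

end

end Pool.Agent.T2C.H49
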