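import Pool.Agent.Lib.MP_c7af3c_ag.T2C.H49.Nopl
import Pool.Agent.Lib.MP_c7af3c_ag.T2C.H19.Hull

/-!
# MP_c7af3c_ag, project T2C: row NOPL from the type (2,2,4)
-/

set_option autoImplicit false

namespace Pool.Agent.T2C.H49

open MvPolynomial Pool.Agent.T2 Pool.Agent.Gen Pool.Agent.Sharp Pool.Agent.Edge
open Pool.Agent.T2.H19

/-- The type (2,2,4). -/
def Nopl224Statement : Prop := ∀ (Ω : Type) [Field Ω] [CharZero Ω] (k : Subfield Ω)
  (Γ : Type) [LinearOrderedCommGroupWithZero Γ] (S : Sizes Ω k Γ) (n c : ℕ) (d : Fin c → ℕ)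
  (D : DSys Ω n c d) (x : Fin (n + 1) → Ω) (j0 : Fin (n + 1)), n = c + 3 → ∑ m, d m = n + 2 →
  (∀ m, 2 ≤ d m) → c = 3 → (∃ m0, d m0 = 4) → Sit S D x j0 →
  ∀ (t : Fin (2 + 1) → Fin (n + 1)) (P : Fin (2 + 1) → Fin (n + 1) → Ω),
    T2C.Hull k x j0 t P → False

theorem nopl_of (h224 : Nopl224Statement) : NoplStatement := by
  intro Ω _ _ k Γ _ S n c d D x j0 hn hd h2 hc h4 h m t P hP
  by_contra hm
  push Not at hm
  have h3 := hP.xP
  obtain rfl | rfl | rfl : m = 0 ∨ m = 1 ∨ m = 2 := by omega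
  · refine h.nl (P 0) 0 (hP.Pk 0) (fun _ => k.zero_mem) (x (t 0)) 0 ?_
    funext f
    rw [smul_zero, add_zero, Pi.smul_apply, smul_eq_mul]
    conv_lhs => rw [h3 f]
    rw [Fin.sum_univ_one, mul_comm]
  · refine h.nl (P 0) (P 1) (hP.Pk 0) (hP.Pk 1) (x (t 0)) (x (t 1)) ?_
    funext f
    rw [Pi.add_apply, Pi.smul_apply, Pi.smul_apply, smul_eq_mul, smul_eq_mul]
    conv_lhs => rw [h3 f]
    rw [Fin.sum_univ_two, mul_comm, mul_comm (x (t 1))]
  · subst hn
    have hd' : ∑ m, d m = c + 5 := hd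
    have hPl : LinearIndependent Ω P := by
      rw [Fintype.linearIndependent_iff]
      intro g hg i
      have h5 := congrFun hg (t i)
      rw [Finset.sum_apply, Pi.zero_apply, Finset.sum_eq_single i] at h5
      · rw [Pi.smul_apply, hP.Pt, if_pos rfl, smul_eq_mul, mul_one] at h5
        exact h5
      · intro j _ hj
        rw [Pi.smul_apply, hP.Pt, if_neg hj, smul_zero]
      · exact fun h => absurd (Finset.mem_univ _) h
    by_cases hs : (∀ m, d m ≤ 3) ∨ (c ≤ 2 ∧ ∀ m, d m ≤ 4)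
    · exact nopl_small D h2 hd' hs h.kalg h.kF hPl hP.Pk h.h0 (fun i => x (t i)) h3 hP.yk
    · push Not at hs
      obtain ⟨⟨m0, hm0⟩, hs2⟩ := hs
      have hm0' : d m0 = 4 := le_antisymm (h4 m0) hm0
      have hc3 : 2 < c := by
        by_contra hcc
        obtain ⟨m1, hm1⟩ := hs2 (by omega)
        have := h4 m1
        omega
      have hc4 : c = 3 := by
        have h6 : 2 * c + 2 ≤ ∑ m, d m := by
          have h7 : ∑ m, (2 + if m = m0 then 2 else 0) ≤ ∑ m, d m := by
            refine Finset.sum_le_sum fun m _ => ?_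
            split_ifs with hmm
            · rw [hmm, hm0']
            · exact h2 m
          rw [Finset.sum_add_distrib, Finset.sum_const, Finset.card_univ, Fintype.card_fin,
            smul_eq_mul, Finset.sum_ite_eq', if_pos (Finset.mem_univ _)] at h7
          omega
        omega
      exact h224 Ω k Γ S _ c d D x j0 rfl hd h2 hc4 ⟨m0, hm0'⟩ h t P hP

end Pool.Agent.T2C.H49
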