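import Pool.Agent.Lib.MP_c7af3c_ag.T2C.IfaceA
import Pool.Agent.Lib.MP_c7af3c_ag.T2.H49.Nopencil

/-!
# MP_c7af3c_ag, project T2C, row ASMA: the regular case is impossible (helper49)
-/

set_option autoImplicit false

namespace Pool.Agent.T2C.H49

open MvPolynomial Pool.Agent.Gen Pool.Agent.Sharp Pool.Agent.Edge
open Pool.Agent.T2 (Fk Rac lnf Sizes Sit)

theorem Cht.li {Ω : Type} [Field Ω] {n : ℕ} {x : Fin (n + 1) → Ω} {j0 : Fin (n + 1)} {m : ℕ}
    {t : Fin (m + 1) → Fin (n + 1)} {P : Fin (m + 1) → Fin (n + 1) → Ω} (hP : Cht x j0 t P) :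
    LinearIndependent Ω P := by
  rw [Fintype.linearIndependent_iff]
  intro g hg i
  have h5 := congrFun hg (t i)
  rw [Finset.sum_apply, Pi.zero_apply, Finset.sum_eq_single i] at h5
  · rw [Pi.smul_apply, hP.Pt, if_pos rfl, smul_eq_mul, mul_one] at h5
    exact h5
  · intro j _ hj
    rw [Pi.smul_apply, hP.Pt, if_neg hj, smul_zero]
  · exact fun h => absurd (Finset.mem_univ _) h

theorem eval_lnf {Ω σ : Type} [Field Ω] [Fintype σ] (a y : σ → Ω) :
    eval y (lnf a) = ∑ j, a j * y j := by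
  unfold lnf
  rw [map_sum]
  exact Finset.sum_congr rfl fun j _ => by rw [map_mul, eval_C, eval_X]

theorem Fk_lnf {Ω : Type} [Field Ω] {k : Subfield Ω} {r : ℕ} {a : Fin r → Ω} (ha : ∀ i, a i ∈ k) :
    Fk k 1 (lnf a) := by
  constructor
  · unfold lnf
    refine IsHomogeneous.sum _ _ _ fun j _ => ?_
    have h := (isHomogeneous_C (Fin r) (a j)).mul (isHomogeneous_X Ω j)
    rwa [zero_add] at h
  · intro I
    unfold lnf
    rw [coeff_sum]
    refine k.sum_mem fun j _ => ?_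
    rw [coeff_C_mul, coeff_X]
    refine k.mul_mem (ha j) ?_
    split_ifs
    · exact k.one_mem
    · exact k.zero_mem

theorem Fk.mul' {Ω : Type} [Field Ω] {k : Subfield Ω} {r a b : ℕ} {p q : MvPolynomial (Fin r) Ω}
    (hp : Fk k a p) (hq : Fk k b q) : Fk k (a + b) (p * q) := by
  refine ⟨hp.1.mul hq.1, fun I => ?_⟩
  rw [coeff_mul]
  exact k.sum_mem fun j _ => k.mul_mem (hp.2 _) (hq.2 _)

theorem Fk.sub' {Ω : Type} [Field Ω] {k : Subfield Ω} {r a : ℕ} {p q : MvPolynomial (Fin r) Ω}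
    (hp : Fk k a p) (hq : Fk k a q) : Fk k a (p - q) := by
  refine ⟨hp.1.sub hq.1, fun I => ?_⟩
  rw [coeff_sub]
  exact k.sub_mem (hp.2 _) (hq.2 _)

/-- the count for the type `(2,5)` -/
theorem type25 {c : ℕ} {d : Fin c → ℕ} (h2 : ∀ m, 2 ≤ d m) (hc : 2 ≤ c) (hd : ∑ m, d m = c + 5)
    {m0 : Fin c} (hm0 : 5 ≤ d m0) : c = 2 ∧ d m0 = 5 ∧ ∀ m, m ≠ m0 → d m = 2 := by
  have h1 : ∑ m, (2 + (d m - 2)) = ∑ m, d m :=
    Finset.sum_congr rfl fun m _ => by have := h2 m; omega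
  rw [Finset.sum_add_distrib, Finset.sum_const, Finset.card_univ, Fintype.card_fin, smul_eq_mul,
    hd] at h1
  have h3 : d m0 - 2 ≤ ∑ m, (d m - 2) :=
    Finset.single_le_sum (f := fun m => d m - 2) (fun _ _ => Nat.zero_le _) (Finset.mem_univ m0)
  have hc2 : c = 2 := by omega
  have hm : d m0 = 5 := by omega
  refine ⟨hc2, hm, fun m hmm => ?_⟩
  have h4 : (d m0 - 2) + (d m - 2) ≤ ∑ m, (d m - 2) := by
    have h5 : ∑ m' ∈ {m0, m}, (d m' - 2) ≤ ∑ m, (d m - 2) :=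
      Finset.sum_le_sum_of_subset (Finset.subset_univ _)
    rwa [Finset.sum_pair hmm.symm] at h5
  have := h2 m
  omega

theorem asma : AsmaStatement := by
  intro hLd hDex hKer hLoc hTaub hHull hVanb hW2 hWordb hAnn0 hAnn1 hNopl hNo3 hReg hExta hCorea
    hEnda hK25 Ω _ _ k Γ _ S n c d D x j0 hn hd h2 hc hS A hA
  by_contra hcon
  obtain ⟨s, r, η, t, P, A0, hB, hB', hG⟩ := hReg hKer hLoc hTaub hHull hVanb hW2 hWordb Ω k Γ S
    n c d D x j0 hn hd hS ⟨A, hA, by omega⟩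
  have hsr := hG.sr
  have hr2 := hG.r2
  have hno3 : ∃ m0, 4 ≤ d m0 := by
    by_contra hno
    push Not at hno
    have := hNo3 Ω k Γ S n c d D x j0 hn hd h2 (fun m => by have := hno m; omega) hS r t P hG.hull
    omega
  have hrs : r = 3 ∧ s = 0 ∨ r = 2 ∧ s = 1 := by omega
  rcases hrs with ⟨rfl, rfl⟩ | ⟨rfl, rfl⟩
  · obtain ⟨m0, hm0⟩ := hno3
    have hann := hAnn0 hHull Ω k Γ S n c d D x j0 hS η m0 hm0
    obtain ⟨Ω', _, _, _, K, D', x', η', P', A0', hK, hG', hA', -⟩ := hExta hLd hDex Ω k n c d D x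
      j0 0 3 η t P A0 hG
    obtain ⟨a, hcore, hC, -⟩ := hCorea hKer Ω' K n c d D' x' j0 0 3 η' t P' A0' hn h2 hG'
    obtain ⟨N, ι, u, h5, h6, h7, -, h9⟩ := hEnda Ω' K hK c d 3 (fun i => x' (t i)) a h2 (by omega)
      hcore
    have hannC := hC m0 (by omega) (hA' m0 hann)
    subst hn
    have hd' : ∑ m, d m = c + 5 := hd
    refine T2.H49.nopencil Ω' K (c + 3) c 3 d D' x' P' (fun i => x' (t i)) hG'.kalg hG'.kF hG'.h0
      (by omega) ?_ hG'.hull.Pk (Cht.li hG'.hull.toCht) hG'.hull.xP hcore.yk N ι u h5 h6 h7 ?_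
    · rw [Finset.sum_add_distrib, ← Finset.mul_sum, hd', Finset.sum_const, Finset.card_univ,
        Fintype.card_fin, smul_eq_mul]
      omega
    · intro l l' e e'
      have h10 := hannC (mnr ι l l' e e')
        (Fk.sub' (Fk.mul' (Fk_lnf (h5 l e)) (Fk_lnf (h5 l' e')))
          (Fk.mul' (Fk_lnf (h5 l e')) (Fk_lnf (h5 l' e))))
        (h9 l l' e e' m0 (by omega))
      unfold mnr at h10
      rw [map_sub, map_mul, map_mul, eval_lnf, eval_lnf, eval_lnf, eval_lnf] at h10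
      exact sub_eq_zero.1 h10
  · by_cases h4 : ∀ m, d m ≤ 4
    · have := hNopl Ω k Γ S n c d D x j0 hn hd h2 hc h4 hS 2 t P hG.hull
      omega
    · push Not at h4
      obtain ⟨m0, hm0⟩ := h4
      subst hn
      obtain ⟨rfl, hm5, hmo⟩ := type25 h2 hc hd hm0
      have hli : LinearIndependent Ω ![x, η 0] := by
        have h5 := hG.bas.comp (fun i : Fin 2 => if i = 0 then (Sum.inl () : Unit ⊕ (Fin 1 ⊕ Fin 2))
          else Sum.inr (Sum.inl 0)) (by
            intro i j hij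
            fin_cases i <;> fin_cases j <;> simp_all)
        convert h5 using 1
        funext i
        fin_cases i <;> rfl
      have hann := hAnn1 Ω k Γ S _ 2 d D x j0 hS η m0 (by omega) (hB 0) hli
      obtain ⟨Ω', _, _, _, K, D', x', η', P', A0', hK, hG', -, hJ'⟩ := hExta hLd hDex Ω k _ 2 d D x
        j0 1 2 η t P A0 hG
      obtain ⟨a, hcore, -, hH⟩ := hCorea hKer Ω' K _ 2 d D' x' j0 1 2 η' t P' A0' rfl h2 hG'
      have hpen := hEnda Ω' K hK 2 d 2 (fun i => x' (t i)) a h2 (by omega) hcore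
      exact hK25 Ω' K hK _ d D' x' j0 η' t P' A0' m0 rfl hm5 hmo hG' (hJ' m0 rfl hann) a hcore hpen
        (hH m0 (by omega))

end Pool.Agent.T2C.H49
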