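import Pool.Agent.Lib.MP_c7af3c_ag.T2C.BetaI
import Pool.Agent.Lib.MP_c7af3c_ag.SHARP.H75.Key
import Pool.Agent.Lib.MP_c7af3c_ag.SHARP.H26.Pair

/-!
# MP_c7af3c_ag, project T2C, row FIN2 (helper49)
At least two quadrics which vanish on the plane: the plane is integrable. The map
`J : Hom(Π, V/Π) → (S^2 Π^*)^s`, `Θ ↦ (b_m(P_i, Θ_j) + b_m(P_j, Θ_i))_m` is onto, so it is
injective.
-/

set_option autoImplicit false

namespace Pool.Agent.T2C.H49.F2

open MvPolynomial Pool.Agent.Gen Pool.Agent.Sharp Pool.Agent.Edge Pool.Agent.T2C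
open Pool.Agent.Sharp.H75 (dco DG)

section forms

variable {Ω : Type} [Field Ω] {n c : ℕ} {d : Fin c → ℕ} (D : DSys Ω n c d)
  (t : Fin 3 → Fin (n + 1)) (P : Fin 3 → Fin (n + 1) → Ω)

/-- the value of `J` at the frame variation `Θ` -/
noncomputable def JJ (m : Fin c) (i j : Fin 3) (Θ : Fin 3 → Fin (n + 1) → Ω) : Ω :=
  ∑ p, (∑ q, eval (P i) (pderiv q (pderiv p (D.F m))) * Θ i q) * P j p +
    ∑ p, eval (P i) (pderiv p (D.F m)) * Θ j p

/-- the polar form of `G` on the plane -/
noncomputable def pol (G : MvPolynomial (Fin (n + 1)) Ω) (i j : Fin 3) : Ω :=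
  ∑ p, eval (P i) (pderiv p G) * P j p

theorem JJ_DG {G : H75.Tup Ω n c} (hG : H75.Hom d G) (m : Fin c) (i j : Fin 3)
    (h : ∑ p, eval (P i) (pderiv p (D.F m)) * P j p = 0) :
    JJ D P m i j (fun i q => DG D G (P i q)) = - pol P (G m) i j := by
  have h1 := congrArg (DG D G) h
  rw [map_zero, map_sum] at h1
  have h2 : ∀ p, DG D G (eval (P i) (pderiv p (D.F m)) * P j p) =
      eval (P i) (pderiv p (G m)) * P j p +
      ((∑ q, eval (P i) (pderiv q (pderiv p (D.F m))) * DG D G (P i q)) * P j p +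
      eval (P i) (pderiv p (D.F m)) * DG D G (P j p)) := by
    intro p
    rw [Derivation.leibniz, smul_eq_mul, smul_eq_mul, Pool.Agent.Gen.H12.der_eval,
      ← H75.eval_dco, H75.dco_pderiv, H75.dco_F D hG m]
    ring
  rw [Finset.sum_congr rfl fun p _ => h2 p, Finset.sum_add_distrib,
    Finset.sum_add_distrib] at h1
  unfold JJ pol
  linear_combination h1

theorem pol_mul (A l : MvPolynomial (Fin (n + 1)) Ω) (i j : Fin 3)
    (h1 : eval (P i) l = 0) (h2 : ∑ p, eval (P i) (pderiv p l) * P j p = 0) :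
    pol P (A * l) i j = 0 := by
  unfold pol
  have h3 : ∀ p, eval (P i) (pderiv p (A * l)) * P j p =
      eval (P i) A * (eval (P i) (pderiv p l) * P j p) := by
    intro p
    rw [pderiv_mul, map_add, map_mul, map_mul, h1]
    ring
  rw [Finset.sum_congr rfl fun p _ => h3 p, ← Finset.mul_sum, h2, mul_zero]

theorem pol_add (G H : MvPolynomial (Fin (n + 1)) Ω) (i j : Fin 3) :
    pol P (G + H) i j = pol P G i j + pol P H i j := by
  unfold pol
  rw [← Finset.sum_add_distrib]
  exact Finset.sum_congr rfl fun p _ => by rw [map_add, map_add]; ring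

theorem pol_zero (i j : Fin 3) : pol P (0 : MvPolynomial (Fin (n + 1)) Ω) i j = 0 := by
  unfold pol
  exact Finset.sum_eq_zero fun p _ => by rw [map_zero, map_zero, zero_mul]

theorem pol_sum {ι : Type} (s : Finset ι) (G : ι → MvPolynomial (Fin (n + 1)) Ω)
    (i j : Fin 3) : pol P (∑ e ∈ s, G e) i j = ∑ e ∈ s, pol P (G e) i j := by
  classical
  induction s using Finset.induction_on with
  | empty => rw [Finset.sum_empty, Finset.sum_empty, pol_zero]
  | insert a s ha ih => rw [Finset.sum_insert ha, Finset.sum_insert ha, pol_add, ih]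

theorem sum_pderiv_X (u v : Fin (n + 1) → Ω) (a : Fin (n + 1)) :
    ∑ p, eval u (pderiv p (X a : MvPolynomial (Fin (n + 1)) Ω)) * v p = v a := by
  classical
  rw [Finset.sum_eq_single a]
  · rw [pderiv_X_self, map_one, one_mul]
  · intro p _ hp
    rw [pderiv_X_of_ne (Ne.symm hp), map_zero, zero_mul]
  · intro h; exact absurd (Finset.mem_univ _) h

variable {t P}

theorem lam_eval (hPt : ∀ i j, P i (t j) = if i = j then 1 else 0) (f : Fin (n + 1))
    (i : Fin 3) : eval (P i) (lam t P f) = 0 := by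
  unfold lam
  rw [map_sub, map_sum, eval_X, Finset.sum_eq_single i]
  · rw [map_mul, eval_C, eval_X, hPt, if_pos rfl, mul_one, sub_self]
  · intro k _ hk
    rw [map_mul, eval_C, eval_X, hPt, if_neg (Ne.symm hk), mul_zero]
  · intro h; exact absurd (Finset.mem_univ _) h

theorem lam_pderiv (hPt : ∀ i j, P i (t j) = if i = j then 1 else 0) (f : Fin (n + 1))
    (i j : Fin 3) : ∑ p, eval (P i) (pderiv p (lam t P f)) * P j p = 0 := by
  have h1 : ∀ p, eval (P i) (pderiv p (lam t P f)) * P j p =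
      eval (P i) (pderiv p (X f : MvPolynomial (Fin (n + 1)) Ω)) * P j p -
      ∑ k, P k f * (eval (P i) (pderiv p (X (t k) : MvPolynomial (Fin (n + 1)) Ω)) *
        P j p) := by
    intro p
    unfold lam
    rw [map_sub, map_sub, map_sum, map_sum, sub_mul, Finset.sum_mul]
    congr 1
    refine Finset.sum_congr rfl fun k _ => ?_
    rw [pderiv_C_mul, map_mul, eval_C]
    ring
  rw [Finset.sum_congr rfl fun p _ => h1 p, Finset.sum_sub_distrib, sum_pderiv_X,
    Finset.sum_comm]
  have h2 : ∀ k, ∑ p, P k f * (eval (P i) (pderiv p (X (t k) :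
      MvPolynomial (Fin (n + 1)) Ω)) * P j p) = P k f * P j (t k) := by
    intro k
    rw [← Finset.mul_sum, sum_pderiv_X]
  rw [Finset.sum_congr rfl fun k _ => h2 k, Finset.sum_eq_single j]
  · rw [hPt, if_pos rfl, mul_one, sub_self]
  · intro k _ hk
    rw [hPt, if_neg (Ne.symm hk), mul_zero]
  · intro h; exact absurd (Finset.mem_univ _) h

theorem pol_XX (hPt : ∀ i j, P i (t j) = if i = j then 1 else 0) (b : Ω)
    (e1 e2 i j : Fin 3) : pol P (C b * (X (t e1) * X (t e2))) i j =
      b * ((if i = e1 then 1 else 0) * (if j = e2 then 1 else 0) +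
        (if i = e2 then 1 else 0) * (if j = e1 then 1 else 0)) := by
  unfold pol
  have h1 : ∀ p, eval (P i) (pderiv p (C b * (X (t e1) * X (t e2)))) * P j p =
      b * (P i (t e1) * (eval (P i) (pderiv p (X (t e2) : MvPolynomial (Fin (n + 1)) Ω)) *
        P j p)) + b * (P i (t e2) *
        (eval (P i) (pderiv p (X (t e1) : MvPolynomial (Fin (n + 1)) Ω)) * P j p)) := by
    intro p
    rw [pderiv_C_mul, pderiv_mul, map_mul, map_add, map_mul, map_mul, eval_C, eval_X, eval_X]
    ring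
  rw [Finset.sum_congr rfl fun p _ => h1 p, Finset.sum_add_distrib, ← Finset.mul_sum,
    ← Finset.mul_sum, ← Finset.mul_sum, ← Finset.mul_sum, sum_pderiv_X, sum_pderiv_X,
    hPt, hPt, hPt, hPt]
  ring

end forms

section count

/-- the number of quadrics -/
theorem count {n c : ℕ} {d : Fin c → ℕ} (hn : n = c + 3) (hd : ∑ m, d m = n + 2)
    (d2 : ∀ m, 2 ≤ d m) {m1 m2 : Fin c} (hne : m1 ≠ m2) (h1 : d m1 = 2) (h2 : d m2 = 2) :
    c + 1 ≤ 2 * Fintype.card {m : Fin c // d m = 2} := by
  classical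
  rw [Fintype.card_subtype]
  have hs2 : 2 ≤ (Finset.univ.filter fun m : Fin c => d m = 2).card := by
    have : ({m1, m2} : Finset (Fin c)) ⊆ Finset.univ.filter fun m : Fin c => d m = 2 := by
      intro m hm
      rw [Finset.mem_insert, Finset.mem_singleton] at hm
      rw [Finset.mem_filter]
      rcases hm with rfl | rfl
      · exact ⟨Finset.mem_univ _, h1⟩
      · exact ⟨Finset.mem_univ _, h2⟩
    have h3 := Finset.card_le_card this
    rwa [Finset.card_pair hne] at h3
  have hsum : 3 * c ≤ ∑ m, d m + (Finset.univ.filter fun m : Fin c => d m = 2).card := by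
    rw [Finset.card_filter, ← Finset.sum_add_distrib]
    have h3 : ∑ _m : Fin c, 3 ≤ ∑ m, (d m + if d m = 2 then 1 else 0) := by
      refine Finset.sum_le_sum fun m _ => ?_
      have := d2 m
      split_ifs with h
      · omega
      · omega
    rw [Finset.sum_const, Finset.card_univ, Fintype.card_fin, smul_eq_mul] at h3
    linarith
  omega

end count

section linear

variable {Ω : Type} [Field Ω] {n c : ℕ} {d : Fin c → ℕ} (D : DSys Ω n c d)
  (t : Fin 3 → Fin (n + 1)) (P : Fin 3 → Fin (n + 1) → Ω)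

theorem JJ_add (m : Fin c) (i j : Fin 3) (Θ Θ' : Fin 3 → Fin (n + 1) → Ω) :
    JJ D P m i j (Θ + Θ') = JJ D P m i j Θ + JJ D P m i j Θ' := by
  unfold JJ
  simp only [Pi.add_apply, mul_add, add_mul, Finset.sum_add_distrib]
  ring

theorem JJ_smul (m : Fin c) (i j : Fin 3) (a : Ω) (Θ : Fin 3 → Fin (n + 1) → Ω) :
    JJ D P m i j (a • Θ) = a * JJ D P m i j Θ := by
  unfold JJ
  rw [mul_add, Finset.mul_sum, Finset.mul_sum]
  congr 1
  · refine Finset.sum_congr rfl fun p _ => ?_
    rw [← mul_assoc, Finset.mul_sum]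
    congr 1
    refine Finset.sum_congr rfl fun q _ => ?_
    rw [Pi.smul_apply, Pi.smul_apply, smul_eq_mul]
    ring
  · refine Finset.sum_congr rfl fun p _ => ?_
    rw [Pi.smul_apply, Pi.smul_apply, smul_eq_mul]
    ring

/-- the coordinates outside the chart -/
abbrev Co (t : Fin 3 → Fin (n + 1)) : Type := {q : Fin (n + 1) // ∀ j, q ≠ t j}

/-- extension by zero -/
noncomputable def ext0 : (Fin 3 → Co t → Ω) →ₗ[Ω] (Fin 3 → Fin (n + 1) → Ω) where
  toFun Θ := fun i q => by
    classical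
    exact if h : ∀ j, q ≠ t j then Θ i ⟨q, h⟩ else 0
  map_add' Θ Θ' := by
    funext i q
    simp only [Pi.add_apply]
    split_ifs
    · rfl
    · rw [add_zero]
  map_smul' a Θ := by
    funext i q
    simp only [Pi.smul_apply, RingHom.id_apply]
    split_ifs
    · rfl
    · rw [smul_zero]

theorem ext0_res (Θ : Fin 3 → Fin (n + 1) → Ω) (h0 : ∀ i j, Θ i (t j) = 0) :
    ext0 t (fun i q => Θ i q.1) = Θ := by
  classical
  funext i q
  unfold ext0
  simp only [LinearMap.coe_mk, AddHom.coe_mk]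
  split_ifs with h
  · rfl
  · push Not at h
    obtain ⟨j, rfl⟩ := h
    rw [h0]

/-- the indices of the target -/
abbrev Ta (d : Fin c → ℕ) : Type := {m : Fin c // d m = 2} × {e : Fin 3 × Fin 3 // e.1 ≤ e.2}

/-- the linear map `J` -/
noncomputable def J0 : (Fin 3 → Co t → Ω) →ₗ[Ω] (Ta d → Ω) where
  toFun Θ := fun a => JJ D P a.1.1 a.2.1.1 a.2.1.2 (ext0 t Θ)
  map_add' Θ Θ' := by
    funext a
    rw [map_add, JJ_add]
    rfl
  map_smul' a Θ := by
    funext b
    rw [map_smul, JJ_smul]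
    rfl

theorem J0_DG {t : Fin 3 → Fin (n + 1)} {P : Fin 3 → Fin (n + 1) → Ω}
    (hPt : ∀ i j, P i (t j) = if i = j then 1 else 0)
    (hq : ∀ m, d m = 2 → ∀ i j, ∑ p, eval (P i) (pderiv p (D.F m)) * P j p = 0)
    {G : H75.Tup Ω n c} (hG : H75.Hom d G) :
    J0 D t P (fun i q => DG D G (P i q.1)) = fun a => - pol P (G a.1.1) a.2.1.1 a.2.1.2 := by
  funext a
  change JJ D P a.1.1 a.2.1.1 a.2.1.2 (ext0 t fun i (q : Co t) => DG D G (P i q.1)) = _
  have h0 : ∀ i j, DG D G (P i (t j)) = 0 := by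
    intro i j
    rw [hPt]
    split_ifs
    · exact (DG D G).map_one_eq_zero
    · exact map_zero _
  rw [ext0_res t (fun i q => DG D G (P i q)) h0]
  exact JJ_DG D P hG a.1.1 _ _ (hq a.1.1 a.1.2 _ _)

theorem J0_surj [CharZero Ω] {t : Fin 3 → Fin (n + 1)} {P : Fin 3 → Fin (n + 1) → Ω}
    (hPt : ∀ i j, P i (t j) = if i = j then 1 else 0)
    (hq : ∀ m, d m = 2 → ∀ i j, ∑ p, eval (P i) (pderiv p (D.F m)) * P j p = 0) :
    Function.Surjective (J0 D t P) := by
  classical
  intro b
  set G : H75.Tup Ω n c := fun m => if h : d m = 2 then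
    ∑ e : {e : Fin 3 × Fin 3 // e.1 ≤ e.2},
      C (- b (⟨m, h⟩, e) * (if e.1.1 = e.1.2 then 2⁻¹ else 1)) * (X (t e.1.1) * X (t e.1.2))
    else 0 with hGd
  have hG : H75.Hom d G := by
    intro m
    simp only [hGd]
    split_ifs with h
    · rw [h]
      refine IsHomogeneous.sum _ _ _ fun e _ => ?_
      have h1 := (isHomogeneous_C (Fin (n + 1))
        (- b (⟨m, h⟩, e) * (if e.1.1 = e.1.2 then 2⁻¹ else 1))).mul
        ((isHomogeneous_X Ω (t e.1.1)).mul (isHomogeneous_X Ω (t e.1.2)))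
      rwa [zero_add] at h1
    · exact isHomogeneous_zero _ _ _
  refine ⟨fun i q => DG D G (P i q.1), ?_⟩
  rw [J0_DG D hPt hq hG]
  funext ⟨⟨m, hm⟩, ⟨⟨i, j⟩, hij⟩⟩
  simp only at hij
  have h1 : G m = ∑ e : {e : Fin 3 × Fin 3 // e.1 ≤ e.2},
      C (- b (⟨m, hm⟩, e) * (if e.1.1 = e.1.2 then 2⁻¹ else 1)) *
        (X (t e.1.1) * X (t e.1.2)) := by
    simp only [hGd]
    rw [dif_pos hm]
  simp only
  rw [h1, pol_sum, Finset.sum_eq_single ⟨(i, j), hij⟩]
  · rw [pol_XX hPt, if_pos rfl, if_pos rfl]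
    by_cases h : i = j
    · subst h
      rw [if_pos rfl, if_pos rfl]
      ring
    · simp only
      rw [if_neg h, if_neg h, if_neg (Ne.symm h)]
      ring
  · rintro ⟨⟨k, l⟩, hkl⟩ _ hne
    simp only at hkl
    rw [pol_XX hPt]
    simp only
    have h2 : ¬ (i = k ∧ j = l) := by
      rintro ⟨rfl, rfl⟩
      exact hne rfl
    have h3 : ¬ (i = l ∧ j = k) := by
      rintro ⟨rfl, rfl⟩
      have := le_antisymm hkl hij
      exact h2 ⟨this.symm, this⟩
    have h4 : ((if i = k then (1 : Ω) else 0) * (if j = l then 1 else 0)) = 0 := by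
      by_cases h : i = k
      · rw [if_neg (fun h' => h2 ⟨h, h'⟩), mul_zero]
      · rw [if_neg h, zero_mul]
    have h5 : ((if i = l then (1 : Ω) else 0) * (if j = k then 1 else 0)) = 0 := by
      by_cases h : i = l
      · rw [if_neg (fun h' => h3 ⟨h, h'⟩), mul_zero]
      · rw [if_neg h, zero_mul]
    rw [h4, h5, add_zero, mul_zero]
  · intro h; exact absurd (Finset.mem_univ _) h

theorem J0_inj [CharZero Ω] {t : Fin 3 → Fin (n + 1)} {P : Fin 3 → Fin (n + 1) → Ω}
    (hn : n = c + 3) (hc : c + 1 ≤ 2 * Fintype.card {m : Fin c // d m = 2})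
    (hPt : ∀ i j, P i (t j) = if i = j then 1 else 0)
    (hq : ∀ m, d m = 2 → ∀ i j, ∑ p, eval (P i) (pderiv p (D.F m)) * P j p = 0) :
    Function.Injective (J0 D t P) := by
  classical
  have hsurj := J0_surj D hPt hq
  have ht : Function.Injective t := by
    intro j j' h
    have h1 := hPt j j
    rw [if_pos rfl, h, hPt] at h1
    by_contra hne
    rw [if_neg hne] at h1
    exact zero_ne_one h1
  have hco : Fintype.card (Co t) + 3 = n + 1 := by
    have h1 : Fintype.card (Co t) = (Finset.univ.filter fun q : Fin (n + 1) =>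
        ∀ j, q ≠ t j).card := Fintype.card_subtype _
    have h2 : (Finset.univ.filter fun q : Fin (n + 1) => ∀ j, q ≠ t j) =
        (Finset.univ.image t)ᶜ := by
      ext q
      simp only [Finset.mem_filter, Finset.mem_univ, true_and, Finset.mem_compl,
        Finset.mem_image, not_exists]
      exact ⟨fun h j hj => h j hj.symm, fun h j hj => h j hj.symm⟩
    have h3 : (Finset.univ.image t).card = 3 := by
      rw [Finset.card_image_of_injective _ ht, Finset.card_univ, Fintype.card_fin]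
    have h4 := Finset.card_compl (Finset.univ.image t)
    rw [h3, Fintype.card_fin] at h4
    rw [h1, h2, h4]
    omega
  have h6 : Fintype.card {e : Fin 3 × Fin 3 // e.1 ≤ e.2} = 6 := by decide
  have hd1 : Module.finrank Ω (Fin 3 → Co t → Ω) = 3 * Fintype.card (Co t) := by
    rw [Module.finrank_pi_fintype]
    simp
  have hd2 : Module.finrank Ω (Ta d → Ω) = Fintype.card {m : Fin c // d m = 2} * 6 := by
    rw [Module.finrank_fintype_fun_eq_card, Fintype.card_prod, h6]
  have hle := LinearMap.finrank_le_finrank_of_surjective hsurj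
  refine (LinearMap.injective_iff_surjective_of_finrank_eq_finrank ?_).2 hsurj
  rw [hd1, hd2] at hle ⊢
  omega

end linear

end Pool.Agent.T2C.H49.F2

namespace Pool.Agent.T2C.H49

open MvPolynomial Pool.Agent.Gen Pool.Agent.Sharp Pool.Agent.Edge Pool.Agent.T2C
open Pool.Agent.Sharp.H75 (dco DG)
open F2

/-- Row FIN2. -/
theorem fin2 : Fin2Statement := by
  intro Ω _ _ n c d D t P hn hd d2 hPt hq m1 m2 hne h1 h2 A hA f i
  have hc := count hn hd d2 hne h1 h2
  have hinj := J0_inj D hn hc hPt hq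
  have hlam : (lam t P f).IsHomogeneous 1 :=
    (isHomogeneous_X Ω f).sub (IsHomogeneous.sum _ _ _ fun _ _ => hom_CX _ _)
  have hG : H75.Hom d (mulT A (lam t P f)) := fun m => hom_mulT hA hlam m
  have hJ := J0_DG D hPt hq hG
  have h0 : (fun a : Ta d => - pol P (mulT A (lam t P f) a.1.1) a.2.1.1 a.2.1.2) = 0 := by
    funext a
    change - pol P (A a.1.1 * lam t P f) a.2.1.1 a.2.1.2 = 0
    rw [pol_mul P _ _ _ _ (lam_eval hPt f _) (lam_pderiv hPt f _ _), neg_zero]
  rw [h0] at hJ
  have hz := hinj (hJ.trans (map_zero _).symm)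
  have hV : VT D (P i) (mulT A (lam t P f)) =
      H75.VT D (P i) (mulT A (lam t P f)) := rfl
  rw [hV]
  funext q
  rw [H75.VT_apply]
  by_cases hqt : ∀ j, q ≠ t j
  · exact congrFun (congrFun hz i) ⟨q, hqt⟩
  · push Not at hqt
    obtain ⟨j, rfl⟩ := hqt
    rw [hPt]
    split_ifs
    · exact (DG D _).map_one_eq_zero
    · exact map_zero _

end Pool.Agent.T2C.H49
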